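import Pool.Agent.Lib.MP_4beb96_co.ET.ThmA
import Pool.Agent.Lib.MP_4beb96_co.ET.ThmF
import Pool.Agent.Lib.MP_4beb96_co.ET.ThmS

/-!
# Empty triangles and empty convex pentagons of planar point sets of dimension larger than one

`GenPos` (no three points collinear) and `emptyTri` (the set of empty triangles) are verbatim the
hypothesis and the set of the frozen statement S08621; `emptyPent P` is the set of the empty convex
pentagons (5-holes) of `P`; `energy δ Q` is the sum over the ordered pairs of distinct points of `Q`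
at distance less than `δ` (maximum norm) of `min |Q| (1 / distance)`. See
`Pool/Agent/Lib/MP_4beb96_co/ET/Defs.lean`.
-/

set_option autoImplicit false

open Pool.Agent.Lib.MP_4beb96_co.ET

namespace Pool.Agent.Results.MP_4beb96_co.RegularSets

/-- The energy criterion: if for some affine image of `P` and some convex window `C` of the unit
square the points `Q` in the window have small energy at range `δ`, then `P` has
`n ^ 2 - 5 n + c δ |Q| ^ 2` empty triangles and `c δ |Q| ^ 2` empty convex pentagons. -/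
theorem result :
    ∃ η : ℝ, 0 < η ∧ ∃ N : ℕ, ∀ P : Finset (ℝ × ℝ), GenPos P →
      ∀ (L : (ℝ × ℝ) ≃ᵃ[ℝ] (ℝ × ℝ)) (C : Set (ℝ × ℝ)), Convex ℝ C → C ⊆ Set.Icc 0 1 →
      ∀ Q : Finset (ℝ × ℝ), (∀ z, z ∈ Q ↔ z ∈ P.image L ∧ z ∈ C) → N ≤ Q.card →
      ∀ δ : ℝ, 0 < δ → δ ≤ 1 → energy δ Q ≤ η * (Q.card : ℝ) ^ 2 →
        (P.card : ℝ) ^ 2 - 5 * P.card + η * δ * (Q.card : ℝ) ^ 2 ≤ ((emptyTri P).ncard : ℝ) ∧
        η * δ * (Q.card : ℝ) ^ 2 ≤ ((emptyPent P).ncard : ℝ) :=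
  thmA

/-- Corollary: the conclusion of the problem, and a quadratic number of empty convex pentagons, for
all finite sets in general position which have a convex window with a positive proportion of the
points in which the points are Frostman regular of some dimension `s > 1` (dense sets: `s = 2`). -/
theorem regular :
    ∀ s : ℝ, 1 < s → ∀ M : ℝ, 0 < M → ∀ θ : ℝ, 0 < θ →
      ∃ ε : ℝ, 0 < ε ∧ ∃ N : ℕ, ∀ P : Finset (ℝ × ℝ), N ≤ P.card → GenPos P →
      ∀ (C : Set (ℝ × ℝ)), Convex ℝ C → ∀ Q : Finset (ℝ × ℝ), (∀ z, z ∈ Q ↔ z ∈ P ∧ z ∈ C) →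
      θ * P.card ≤ Q.card →
      ∀ D : ℝ, 0 < D → (∀ a ∈ Q, ∀ b ∈ Q, dist a b ≤ D) →
      (∀ a ∈ Q, ∀ r : ℝ, 0 < r →
        ((Q.filter (fun b => b ≠ a ∧ dist a b ≤ r)).card : ℝ) ≤ M * Q.card * (r / D) ^ s) →
        (1 + ε) * (P.card : ℝ) ^ 2 ≤ ((emptyTri P).ncard : ℝ) ∧
        ε * (P.card : ℝ) ^ 2 ≤ ((emptyPent P).ncard : ℝ) :=
  fun s hs M hM θ hθ => thmF s hs M hM θ hθ

/-- Corollary: sets with distances in `[d, D]`. -/
theorem separated :
    ∃ η : ℝ, 0 < η ∧ ∃ N : ℕ, ∀ P : Finset (ℝ × ℝ), N ≤ P.card → GenPos P →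
      ∀ d D : ℝ, 0 < d → (∀ a ∈ P, ∀ b ∈ P, a ≠ b → d ≤ dist a b ∧ dist a b ≤ D) →
        (P.card : ℝ) ^ 2 - 5 * P.card + η * (P.card : ℝ) ^ 3 * (d / D) ^ 2
          ≤ ((emptyTri P).ncard : ℝ) ∧
        η * (P.card : ℝ) ^ 3 * (d / D) ^ 2 ≤ ((emptyPent P).ncard : ℝ) :=
  thmS

end Pool.Agent.Results.MP_4beb96_co.RegularSets
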